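import Pool.Agent.H41.HKB.Targets

set_option autoImplicit false

namespace Pool.Agent.H57.HKB

open Finset Pool.Agent.H41.HKB Pool.Agent.H42.BD
open scoped Classical

lemma deg_count {V : Type} [Fintype V] (G : SimpleGraph V) (B : Finset V) :
    ∑ x, ((nb G x ∩ B).card : ℝ) = ∑ v ∈ B, ((nb G v).card : ℝ) := by
  have h1 : ∀ x, ((nb G x ∩ B).card : ℝ) = ∑ v ∈ B, (if G.Adj x v then (1 : ℝ) else 0) := by
    intro x
    rw [Finset.sum_boole]
    congr 2
    ext v
    rw [mem_inter, mem_filter, mem_nb]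
    tauto
  have h2 : ∀ v, ((nb G v).card : ℝ) = ∑ x, (if G.Adj x v then (1 : ℝ) else 0) := by
    intro v
    rw [Finset.sum_boole]
    congr 2
    ext x
    rw [mem_filter, mem_nb, G.adj_comm]
    simp
  rw [Finset.sum_congr rfl (fun x _ => h1 x), Finset.sum_comm]
  exact Finset.sum_congr rfl (fun v _ => (h2 v).symm)

lemma pair_count {V : Type} [Fintype V] (G : SimpleGraph V) (B : Finset V) (h : ℕ) :
    ∑ x, ((((nb G x ∩ B) ×ˢ (nb G x ∩ B)).filter
      (fun p => p.1 ≠ p.2 ∧ cd G p.1 p.2 < h)).card : ℝ) ≤ h * (B.card : ℝ) ^ 2 := by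
  have h1 : ∀ x, ((((nb G x ∩ B) ×ˢ (nb G x ∩ B)).filter
      (fun p => p.1 ≠ p.2 ∧ cd G p.1 p.2 < h)).card : ℝ) =
      ∑ p ∈ (B ×ˢ B).filter (fun p => p.1 ≠ p.2 ∧ cd G p.1 p.2 < h),
        (if G.Adj p.1 x ∧ G.Adj p.2 x then (1 : ℝ) else 0) := by
    intro x
    rw [Finset.sum_boole]
    congr 2
    ext p
    simp only [mem_filter, mem_product, mem_inter, mem_nb, G.adj_comm x]
    tauto
  rw [Finset.sum_congr rfl (fun x _ => h1 x), Finset.sum_comm]
  have h2 : ∀ p ∈ (B ×ˢ B).filter (fun p => p.1 ≠ p.2 ∧ cd G p.1 p.2 < h),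
      ∑ x, (if G.Adj p.1 x ∧ G.Adj p.2 x then (1 : ℝ) else 0) ≤ h := by
    intro p hp
    rw [mem_filter] at hp
    rw [Finset.sum_boole]
    have : (univ.filter (fun x => G.Adj p.1 x ∧ G.Adj p.2 x)).card ≤ h := by
      have := hp.2.2
      unfold cd cn at this
      exact this.le
    exact_mod_cast this
  refine (Finset.sum_le_card_nsmul _ _ _ h2).trans ?_
  rw [nsmul_eq_mul]
  have h3 : (((B ×ˢ B).filter (fun p => p.1 ≠ p.2 ∧ cd G p.1 p.2 < h)).card : ℝ) ≤
      (B.card : ℝ) ^ 2 := by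
    have : ((B ×ˢ B).filter (fun p => p.1 ≠ p.2 ∧ cd G p.1 p.2 < h)).card ≤ B.card ^ 2 := by
      refine (card_filter_le _ _).trans ?_
      rw [card_product, sq]
    exact_mod_cast this
  have : (0 : ℝ) ≤ h := by positivity
  nlinarith [mul_le_mul_of_nonneg_right h3 this]

theorem pf_DEG (hHVY : T_HVY) (hCW : T_CW) : T_DEG := by
  intro k hk2
  have hk2' : (2 : ℝ) ≤ k := by exact_mod_cast hk2
  have hhk : (0 : ℝ) < hk k := by
    unfold hk
    positivity
  have hM2 : 0 < 2 * ((k : ℝ) - 1) * hk k := by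
    have : (0 : ℝ) < (k : ℝ) - 1 := by linarith
    positivity
  set M := Real.sqrt (2 * ((k : ℝ) - 1) * hk k) with hM
  have hMp : 0 < M := Real.sqrt_pos.mpr hM2
  have hMsq : M ^ 2 = 2 * ((k : ℝ) - 1) * hk k := Real.sq_sqrt hM2.le
  refine ⟨M, hMp, ?_⟩
  intro V _ G hG
  set n : ℝ := (Fintype.card V : ℝ) with hn
  have hn0 : 0 ≤ n := by positivity
  have hsn : (sn V) ^ 2 = n := Real.sq_sqrt hn0
  have hsn0 : 0 ≤ sn V := Real.sqrt_nonneg _
  set B : Finset V := univ.filter (fun v => M * sn V < ((nb G v).card : ℝ)) with hB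
  set E : ℝ := ∑ v ∈ B, ((nb G v).card : ℝ) with hE
  have hE0 : 0 ≤ E := by
    rw [hE]
    exact Finset.sum_nonneg (fun v _ => by positivity)
  have hEx : ∑ x, ((nb G x ∩ B).card : ℝ) = E := deg_count G B
  -- local inequality
  have hloc : ∀ x, ((nb G x ∩ B).card : ℝ) ^ 2 ≤ ((k : ℝ) - 1) * (((nb G x ∩ B).card : ℝ) +
      ((((nb G x ∩ B) ×ˢ (nb G x ∩ B)).filter
      (fun p => p.1 ≠ p.2 ∧ cd G p.1 p.2 < hk k)).card : ℝ)) := by
    intro x
    have h := hCW V (nb G x ∩ B) (fun a b => cd G a b < hk k) (k - 1)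
      (fun a b h => by rw [cd_comm]; exact h) (fun A hA hAc => ?_)
    · have h' : (nb G x ∩ B).card ^ 2 ≤ (k - 1) * ((nb G x ∩ B).card +
          (((nb G x ∩ B) ×ˢ (nb G x ∩ B)).filter
          (fun p => p.1 ≠ p.2 ∧ cd G p.1 p.2 < hk k)).card) := by
        convert h
      have := (Nat.cast_le (α := ℝ)).mpr h'
      push_cast [Nat.cast_sub (show 1 ≤ k by omega)] at this
      exact this
    · exact hHVY k V G hG x A (hA.trans inter_subset_left) (by omega)
  have hcs : E ^ 2 ≤ n * ∑ x, ((nb G x ∩ B).card : ℝ) ^ 2 := by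
    rw [← hEx]
    have := sq_sum_le_card_mul_sum_sq (s := (univ : Finset V))
      (f := fun x => ((nb G x ∩ B).card : ℝ))
    rw [card_univ] at this
    exact this
  have hsum : ∑ x, ((nb G x ∩ B).card : ℝ) ^ 2 ≤
      ((k : ℝ) - 1) * (E + hk k * (B.card : ℝ) ^ 2) := by
    calc ∑ x, ((nb G x ∩ B).card : ℝ) ^ 2 ≤ ∑ x, ((k : ℝ) - 1) * (((nb G x ∩ B).card : ℝ) +
          ((((nb G x ∩ B) ×ˢ (nb G x ∩ B)).filter
          (fun p => p.1 ≠ p.2 ∧ cd G p.1 p.2 < hk k)).card : ℝ)) :=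
          Finset.sum_le_sum (fun x _ => hloc x)
      _ = ((k : ℝ) - 1) * (E + ∑ x, ((((nb G x ∩ B) ×ˢ (nb G x ∩ B)).filter
          (fun p => p.1 ≠ p.2 ∧ cd G p.1 p.2 < hk k)).card : ℝ)) := by
          rw [← Finset.mul_sum, Finset.sum_add_distrib, hEx]
      _ ≤ _ := by
          have h1 := pair_count G B (hk k)
          have h2 : (0 : ℝ) ≤ (k : ℝ) - 1 := by linarith
          exact mul_le_mul_of_nonneg_left (by linarith) h2
  have hBE : M * sn V * B.card ≤ E := by
    rw [hE]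
    have : ∑ v ∈ B, (M * sn V) ≤ ∑ v ∈ B, ((nb G v).card : ℝ) := by
      refine Finset.sum_le_sum (fun v hv => ?_)
      rw [hB, mem_filter] at hv
      exact hv.2.le
    rw [Finset.sum_const, nsmul_eq_mul] at this
    linarith
  have hBE2 : 2 * ((k : ℝ) - 1) * hk k * n * (B.card : ℝ) ^ 2 ≤ E ^ 2 := by
    have h1 : (M * sn V * B.card) ^ 2 ≤ E ^ 2 :=
      pow_le_pow_left₀ (by positivity) hBE 2
    calc 2 * ((k : ℝ) - 1) * hk k * n * (B.card : ℝ) ^ 2 = (M * sn V * B.card) ^ 2 := by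
          rw [mul_pow, mul_pow, hMsq, hsn]
      _ ≤ _ := h1
  have hfin : E ≤ 2 * ((k : ℝ) - 1) * n := by
    have h1 : E ^ 2 ≤ n * (((k : ℝ) - 1) * (E + hk k * (B.card : ℝ) ^ 2)) :=
      hcs.trans (mul_le_mul_of_nonneg_left hsum hn0)
    have h2 : E ^ 2 ≤ 2 * ((k : ℝ) - 1) * n * E := by nlinarith
    by_contra hcon
    push Not at hcon
    have hEpos : 0 < E := lt_of_le_of_lt (by
      have : (0 : ℝ) ≤ (k : ℝ) - 1 := by linarith
      positivity) hcon
    nlinarith [mul_lt_mul_of_pos_right hcon hEpos]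
  -- the graph
  let G' : SimpleGraph V :=
    { Adj := fun u v => G.Adj u v ∧ u ∉ B ∧ v ∉ B
      symm := ⟨fun u v h => ⟨h.1.symm, h.2.2, h.2.1⟩⟩
      loopless := ⟨fun u h => G.loopless.irrefl u h.1⟩ }
  have hle : G' ≤ G := fun u v h => h.1
  refine ⟨G', ⟨?_, ?_⟩, ?_⟩
  · intro hc
    exact hG (hc.trans (SimpleGraph.IsContained.of_le hle))
  · intro v
    by_cases hv : v ∈ B
    · have : nb G' v = ∅ := by
        ext u
        rw [mem_nb]
        simp only [notMem_empty, iff_false]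
        intro h
        exact h.2.1 hv
      rw [this, card_empty]
      simp only [Nat.cast_zero]
      positivity
    · have h1 : ((nb G v).card : ℝ) ≤ M * sn V := by
        rw [hB, mem_filter] at hv
        by_contra h
        exact hv ⟨mem_univ _, not_le.mp h⟩
      have h2 : (nb G' v).card ≤ (nb G v).card := by
        refine card_le_card (fun u hu => ?_)
        rw [mem_nb] at hu ⊢
        exact hu.1
      have h3 : ((nb G' v).card : ℝ) ≤ (nb G v).card := by exact_mod_cast h2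
      linarith
  · have h1 : ∀ v, ((nb G v).card : ℝ) ≤ (nb G' v).card + (nb G v ∩ B).card +
        (if v ∈ B then ((nb G v).card : ℝ) else 0) := by
      intro v
      by_cases hv : v ∈ B
      · rw [if_pos hv]
        have : (0 : ℝ) ≤ (nb G' v).card + (nb G v ∩ B).card := by positivity
        linarith
      · rw [if_neg hv, add_zero]
        have h2 : (nb G v).card ≤ (nb G' v).card + (nb G v ∩ B).card := by
          refine (card_le_card (fun u hu => ?_)).trans (card_union_le _ _)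
          rw [mem_union, mem_inter, mem_nb]
          rw [mem_nb] at hu
          by_cases hub : u ∈ B
          · exact Or.inr ⟨mem_nb.mpr hu, hub⟩
          · exact Or.inl ⟨hu, hv, hub⟩
        exact_mod_cast h2
    have h2 := Finset.sum_le_sum (fun v (_ : v ∈ (univ : Finset V)) => h1 v)
    rw [Finset.sum_add_distrib, Finset.sum_add_distrib, hEx] at h2
    have h3 : ∑ v : V, (if v ∈ B then ((nb G v).card : ℝ) else 0) = E := by
      rw [hE, Finset.sum_ite_mem, univ_inter]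
    rw [h3] at h2
    have h4 : (k : ℝ) * n ≥ 0 := by positivity
    nlinarith
end Pool.Agent.H57.HKB
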