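import Pool.Agent.H41.HKB.Targets

set_option autoImplicit false

namespace Pool.Agent.H57.HKB

open Finset Pool.Agent.H41.HKB Pool.Agent.H42.BD
open scoped Classical

theorem pf_INA (hHVY : T_HVY) (hCW : T_CW) : T_INA := by
  intro k R hk2 hR V _ G hG y B F hB h2R hF hK
  have hR1 : 1 ≤ R := by
    by_contra h
    have hR0 : R = 0 := by omega
    obtain ⟨K, _, hKc, _⟩ := hR Empty ∅ (fun _ _ => True) (fun _ _ h => h) (by simp [hR0])
    have : K.card = 0 := by
      rw [Finset.card_eq_zero]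
      ext a
      exact a.elim
    omega
  have hcw := hCW V B F (R - 1) hF (fun A hA hAc => ?_)
  · set P := ((B ×ˢ B).filter (fun p => p.1 ≠ p.2 ∧ F p.1 p.2)).card with hP
    have h1 : ((B.card : ℝ)) ^ 2 ≤ ((R : ℝ) - 1) * (B.card + P) := by
      have := (Nat.cast_le (α := ℝ)).mpr hcw
      push_cast [Nat.cast_sub hR1] at this
      exact this
    have h2 : 2 * (R : ℝ) ≤ B.card := by exact_mod_cast h2R
    have hb : (0 : ℝ) ≤ B.card := by positivity
    have hp : (0 : ℝ) ≤ (P : ℝ) := by positivity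
    have hR1' : (1 : ℝ) ≤ R := by exact_mod_cast hR1
    nlinarith [mul_le_mul_of_nonneg_right h2 hb, mul_nonneg hb hp]
  · obtain ⟨K, hKA, hKc, hor⟩ := hR V A (fun a b => cd G a b < hk k)
      (fun a b h => by rw [cd_comm]; exact h) (by omega)
    rcases hor with h | h
    · obtain ⟨a, ha, b, hb, hab, hFab⟩ := hK K (hKA.trans hA) hKc h
      exact ⟨a, hKA ha, b, hKA hb, hab, hFab⟩
    · exfalso
      obtain ⟨a, ha, b, hb, hab, hlt⟩ := hHVY k V G hG y K ((hKA.trans hA).trans hB) hKc
      exact h a ha b hb hab hlt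

end Pool.Agent.H57.HKB
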