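import Pool.Agent.H41.HKB.Targets

set_option autoImplicit false

namespace Pool.Agent.H57.HKB

open Finset Pool.Agent.H41.HKB Pool.Agent.H42.BD
open scoped Classical

lemma xch_count {V : Type} [Fintype V] (G : SimpleGraph V) :
    ∑ x, ∑ z, ((cn G x z).card : ℝ) = ∑ v, ((nb G v).card : ℝ) ^ 2 := by
  have h1 : ∀ x z, ((cn G x z).card : ℝ) =
      ∑ y, (if G.Adj x y then (1 : ℝ) else 0) * (if G.Adj z y then (1 : ℝ) else 0) := by
    intro x z
    have : ∀ y, (if G.Adj x y then (1 : ℝ) else 0) * (if G.Adj z y then (1 : ℝ) else 0) =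
        if G.Adj x y ∧ G.Adj z y then (1 : ℝ) else 0 := by
      intro y
      by_cases h1 : G.Adj x y <;> by_cases h2 : G.Adj z y <;> simp [h1, h2]
    rw [Finset.sum_congr rfl (fun y _ => this y), Finset.sum_boole]
    rfl
  have h2 : ∀ v, ((nb G v).card : ℝ) = ∑ x, (if G.Adj x v then (1 : ℝ) else 0) := by
    intro v
    rw [Finset.sum_boole]
    congr 2
    ext x
    rw [mem_filter, mem_nb, G.adj_comm]
    simp
  have h3 : ∀ x, ∑ z, ((cn G x z).card : ℝ) =
      ∑ y, (if G.Adj x y then (1 : ℝ) else 0) * ((nb G y).card : ℝ) := by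
    intro x
    rw [Finset.sum_congr rfl (fun z _ => h1 x z), Finset.sum_comm]
    refine Finset.sum_congr rfl (fun y _ => ?_)
    rw [← Finset.mul_sum, ← h2]
  rw [Finset.sum_congr rfl (fun x _ => h3 x), Finset.sum_comm]
  refine Finset.sum_congr rfl (fun y _ => ?_)
  rw [← Finset.sum_mul, ← h2, sq]

theorem pf_XCH (hSPL : T_SPL) (hOUT : T_OUT) : T_XCH := by
  intro k T M ε ε' δ lam hk2 hM hε hε' hδ hlam
  have hk2' : (2 : ℝ) ≤ k := by exact_mod_cast hk2
  have hC2 : 0 ≤ C2 k M := by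
    unfold C2
    have : (0 : ℝ) ≤ (k : ℝ) - 1 := by linarith
    positivity
  set K : ℝ := (C2 k M / ε ^ 2) ^ 2 * (T : ℝ) ^ 2 with hK
  have hK0 : 0 ≤ K := by positivity
  set A : ℝ := M + M * C2 k M / δ + C2 k M / ε' ^ 2 * M with hA
  have hA0 : 0 < A := by positivity
  set s0 : ℝ := 1 + 2 * (K + A) / δ with hs0
  have hs0p : 1 ≤ s0 := by
    have : 0 ≤ 2 * (K + A) / δ := by positivity
    linarith
  refine ⟨⌈s0 ^ 2⌉₊, ?_⟩
  intro V _ G hn0 hGd hIs hlamD
  set n : ℝ := (Fintype.card V : ℝ) with hn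
  have hns0 : s0 ^ 2 ≤ n := (Nat.le_ceil _).trans (by rw [hn]; exact_mod_cast hn0)
  have hn1 : 1 ≤ n := by nlinarith
  set s : ℝ := sn V with hs
  have hsdef : s = Real.sqrt n := rfl
  have hs2 : s ^ 2 = n := by
    rw [hsdef]
    exact Real.sq_sqrt (by linarith)
  have hss0 : s0 ≤ s := by
    rw [hsdef]
    exact Real.le_sqrt_of_sq_le hns0
  have hs1 : 1 ≤ s := hs0p.trans hss0
  have hspos : 0 < s := by linarith
  set W : ℝ := M * s + Real.sqrt (M * s * (C2 k M * n)) + C2 k M / ε' ^ 2 * (M * s) with hW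
  have hsqrt : Real.sqrt (M * s * (C2 k M * n)) ≤ δ / 4 * s ^ 2 + M * C2 k M / δ * s := by
    apply Real.sqrt_le_iff.mpr
    refine ⟨by positivity, ?_⟩
    have h1 : M * s * (C2 k M * n) = 4 * (δ / 4 * s ^ 2) * (M * C2 k M / δ * s) := by
      rw [← hs2]
      field_simp
    rw [h1]
    nlinarith [sq_nonneg (δ / 4 * s ^ 2 - M * C2 k M / δ * s)]
  have herr : K + W ≤ δ * n := by
    have h1 : W ≤ A * s + δ / 4 * s ^ 2 := by
      rw [hW, hA]
      linarith
    have h2 : 2 * (K + A) / δ ≤ s := by linarith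
    have h3 : 2 * (K + A) ≤ s * δ := by
      rw [div_le_iff₀ hδ] at h2
      exact h2
    rw [← hs2]
    have h4 : K ≤ K * s := by nlinarith
    have h5 : 2 * (K + A) * s ≤ s * δ * s := mul_le_mul_of_nonneg_right h3 hspos.le
    nlinarith
  by_contra hcon
  push Not at hcon
  have hV : (univ : Finset V).Nonempty := by
    rw [Finset.univ_nonempty_iff, ← Fintype.card_pos_iff]
    have : (0 : ℝ) < (Fintype.card V : ℝ) := by
      rw [← hn]
      linarith
    exact_mod_cast this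
  have hsum := Finset.sum_lt_sum_of_nonempty hV (fun x _ => hcon x)
  rw [Finset.sum_const, card_univ, nsmul_eq_mul, ← hn] at hsum
  have hlow : ∀ x, ∑ z, ((Sp T ε G x z).card : ℝ) - W ≤
      ∑ z ∈ Zp ε' G x, ((Sp T ε G x z).card : ℝ) := by
    intro x
    have h1 : ∑ z, ((Sp T ε G x z).card : ℝ) =
        ∑ z ∈ univ \ Zp ε' G x, ((Sp T ε G x z).card : ℝ) +
          ∑ z ∈ Zp ε' G x, ((Sp T ε G x z).card : ℝ) :=
      (Finset.sum_sdiff (subset_univ _)).symm
    have h2 : ∑ z ∈ univ \ Zp ε' G x, ((Sp T ε G x z).card : ℝ) ≤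
        ∑ z ∈ univ \ Zp ε' G x, (cd G x z : ℝ) := by
      refine Finset.sum_le_sum (fun z _ => ?_)
      unfold cd
      exact_mod_cast card_le_card Sp_sub
    have h3 := hOUT k M ε' hk2 hM hε' V G hGd x
    rw [h1]
    linarith
  have hspl := hSPL k T M ε δ hk2 hM hε V G hGd hIs
  simp only [Finset.sum_sub_distrib] at hspl hsum
  rw [xch_count] at hspl
  have h1 : ∑ x, (∑ z, ((Sp T ε G x z).card : ℝ) - W) ≤
      ∑ x, ∑ z ∈ Zp ε' G x, ((Sp T ε G x z).card : ℝ) :=
    Finset.sum_le_sum (fun x _ => hlow x)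
  rw [Finset.sum_sub_distrib, Finset.sum_const, card_univ, nsmul_eq_mul, ← hn] at h1
  rw [← Finset.sum_div] at hsum
  have h2 : n * (K + W) ≤ n * (δ * n) := mul_le_mul_of_nonneg_left herr (by linarith)
  have h3 : (C2 k M / ε ^ 2) ^ 2 * (T : ℝ) ^ 2 * n = K * n := rfl
  rw [← hn] at hspl
  nlinarith

end Pool.Agent.H57.HKB
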